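import Pool.Graph.R_seed8.Erdos456.Mertens

/-!
# The products `∏ (p_n + 1)/(p_n - 1)` are rarely integers
-/

set_option autoImplicit false

namespace Pool.Agent.KS6_83.SI

open Finset

/-- The set of primes up to `Y`. -/
def PS (Y : ℕ) : Finset ℕ := (Finset.Icc 1 Y).filter Nat.Prime

theorem mem_PS {Y p : ℕ} : p ∈ PS Y ↔ p ≤ Y ∧ p.Prime := by
  unfold PS
  rw [mem_filter, mem_Icc]
  constructor
  · rintro ⟨⟨_, h1⟩, h2⟩
    exact ⟨h1, h2⟩
  · rintro ⟨h1, h2⟩
    exact ⟨⟨h2.one_le, h1⟩, h2⟩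

/-- `P m` is the product of `(p + 1)/(p - 1)` over the first `m` primes. -/
noncomputable def P (m : ℕ) : ℝ :=
  ∏ i ∈ range m, ((Nat.nth Nat.Prime i : ℝ) + 1) / ((Nat.nth Nat.Prime i : ℝ) - 1)

lemma nth_ge (i : ℕ) : (2 : ℝ) ≤ Nat.nth Nat.Prime i := by
  exact_mod_cast (Nat.prime_nth_prime i).two_le

lemma fac_gt (i : ℕ) :
    1 < ((Nat.nth Nat.Prime i : ℝ) + 1) / ((Nat.nth Nat.Prime i : ℝ) - 1) := by
  have := nth_ge i
  rw [lt_div_iff₀ (by linarith)]
  linarith

lemma P_ge (m : ℕ) : 1 ≤ P m := by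
  induction m with
  | zero => simp [P]
  | succ m ih =>
    have h : P (m + 1) = P m * (((Nat.nth Nat.Prime m : ℝ) + 1) /
        ((Nat.nth Nat.Prime m : ℝ) - 1)) := by
      unfold P
      rw [Finset.prod_range_succ]
    rw [h]
    have h2 := fac_gt m
    nlinarith

lemma P_lt (m : ℕ) : P m < P (m + 1) := by
  have h : P (m + 1) = P m * (((Nat.nth Nat.Prime m : ℝ) + 1) /
      ((Nat.nth Nat.Prime m : ℝ) - 1)) := by
    unfold P
    rw [Finset.prod_range_succ]
  rw [h]
  have h1 := P_ge m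
  have h2 := fac_gt m
  nlinarith

lemma P_mono : StrictMono P := strictMono_nat_of_lt_succ P_lt

open Classical in
theorem count (M : ℕ) :
    (((Icc 1 M).filter fun m => ∃ z : ℤ, P m = z).card : ℝ) ≤ P M := by
  have h1 : ((Icc 1 M).filter fun m => ∃ z : ℤ, P m = z).card ≤ (Icc 1 ⌊P M⌋₊).card := by
    apply Finset.card_le_card_of_injOn (fun m => ⌊P m⌋₊)
    · intro m hm
      have hm' := hm
      simp only [coe_filter, Set.mem_ofPred_eq, mem_Icc] at hm'
      simp only [coe_Icc, Set.mem_Icc]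
      constructor
      · rw [Nat.one_le_floor_iff]
        exact P_ge m
      · exact Nat.floor_le_floor (P_mono.monotone hm'.1.2)
    · intro m hm n hn hmn
      simp only [coe_filter, Set.mem_ofPred_eq, mem_Icc] at hm hn
      simp only at hmn
      obtain ⟨_, z, hz⟩ := hm
      obtain ⟨_, w, hw⟩ := hn
      have e : ∀ (k : ℕ) (z : ℤ), P k = z → ((⌊P k⌋₊ : ℕ) : ℝ) = P k := by
        intro k z hz
        have h0 : 0 ≤ z := by
          have := P_ge k
          rw [hz] at this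
          have : (1 : ℤ) ≤ z := by exact_mod_cast this
          omega
        obtain ⟨c, rfl⟩ := Int.eq_ofNat_of_zero_le h0
        rw [hz]
        simp
      apply P_mono.injective
      rw [← e m z hz, ← e n w hw, hmn]
  rw [Nat.card_Icc] at h1
  have h2 : (((Icc 1 M).filter fun m => ∃ z : ℤ, P m = z).card : ℝ) ≤ (⌊P M⌋₊ : ℕ) := by
    exact_mod_cast (by omega : _ ≤ ⌊P M⌋₊)
  exact h2.trans (Nat.floor_le (by linarith [P_ge M]))

lemma tele (Y : ℕ) (hY : 1 ≤ Y) :
    ∑ n ∈ Ioc 1 Y, (1 : ℝ) / (n * (n - 1)) = 1 - 1 / Y := by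
  induction Y, hY using Nat.le_induction with
  | base => simp
  | succ Y hY ih =>
    rw [← Finset.insert_Ioc_right_eq_Ioc_add_one (by omega), Finset.sum_insert (by simp), ih]
    have : (0 : ℝ) < Y := by exact_mod_cast hY
    push_cast
    rw [show (Y : ℝ) + 1 - 1 = Y by ring]
    field_simp
    ring

theorem upper_aux (C : ℝ) (hC : ∀ N : ℕ, 3 ≤ N →
    |∑ p ∈ (Finset.Icc 1 N).filter Nat.Prime, (1 : ℝ) / p - Real.log (Real.log N)| ≤ C)
    (M : ℕ) (hM : 3 ≤ Nat.nth Nat.Prime M) :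
    P (M + 1) ≤ Real.exp (2 * C + 2) * Real.log (Nat.nth Nat.Prime M) ^ 2 := by
  set Y := Nat.nth Nat.Prime M with hY
  have hY2 : 2 ≤ Y := (Nat.prime_nth_prime M).two_le
  have hY2' : (2 : ℝ) ≤ Y := by exact_mod_cast hY2
  have h1 : P (M + 1) ≤ Real.exp (∑ i ∈ range (M + 1), 2 / ((Nat.nth Nat.Prime i : ℝ) - 1)) := by
    unfold P
    rw [Real.exp_sum]
    apply Finset.prod_le_prod
    · intro i _
      linarith [fac_gt i]
    · intro i _
      have h2 := nth_ge i
      have h3 := Real.add_one_le_exp (2 / ((Nat.nth Nat.Prime i : ℝ) - 1))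
      refine le_trans (le_of_eq ?_) h3
      have : (Nat.nth Nat.Prime i : ℝ) - 1 ≠ 0 := by linarith
      field_simp
      ring
  have h2 : ∑ i ∈ range (M + 1), 2 / ((Nat.nth Nat.Prime i : ℝ) - 1) ≤
      ∑ p ∈ PS Y, 2 / ((p : ℝ) - 1) := by
    have e : ∑ i ∈ range (M + 1), 2 / ((Nat.nth Nat.Prime i : ℝ) - 1) =
        ∑ p ∈ (range (M + 1)).image (Nat.nth Nat.Prime), 2 / ((p : ℝ) - 1) := by
      rw [Finset.sum_image]
      intro i _ j _ hij
      exact Nat.nth_injective Nat.infinite_setOfPred_prime hij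
    rw [e]
    apply Finset.sum_le_sum_of_subset_of_nonneg
    · intro p hp
      rw [mem_image] at hp
      obtain ⟨i, hi, rfl⟩ := hp
      rw [mem_range] at hi
      rw [mem_PS]
      exact ⟨(Nat.nth_monotone Nat.infinite_setOfPred_prime) (by omega), Nat.prime_nth_prime i⟩
    · intro p hp _
      rw [mem_PS] at hp
      have : (2 : ℝ) ≤ p := by exact_mod_cast hp.2.two_le
      apply div_nonneg (by norm_num)
      linarith
  have h3 : ∑ p ∈ PS Y, 2 / ((p : ℝ) - 1) =
      2 * ∑ p ∈ PS Y, (1 : ℝ) / p + 2 * ∑ p ∈ PS Y, (1 : ℝ) / (p * (p - 1)) := by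
    rw [Finset.mul_sum, Finset.mul_sum, ← Finset.sum_add_distrib]
    apply Finset.sum_congr rfl
    intro p hp
    rw [mem_PS] at hp
    have h4 : (2 : ℝ) ≤ p := by exact_mod_cast hp.2.two_le
    have h5 : (p : ℝ) - 1 ≠ 0 := by linarith
    have h6 : (p : ℝ) ≠ 0 := by linarith
    field_simp
    ring
  have h4 : ∑ p ∈ PS Y, (1 : ℝ) / (p * (p - 1)) ≤ 1 := by
    calc ∑ p ∈ PS Y, (1 : ℝ) / (p * (p - 1)) ≤ ∑ n ∈ Ioc 1 Y, (1 : ℝ) / (n * (n - 1)) := by
          apply Finset.sum_le_sum_of_subset_of_nonneg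
          · intro p hp
            rw [mem_PS] at hp
            rw [mem_Ioc]
            exact ⟨hp.2.one_lt, hp.1⟩
          · intro n hn _
            rw [mem_Ioc] at hn
            have : (2 : ℝ) ≤ n := by exact_mod_cast hn.1
            apply div_nonneg (by norm_num)
            apply mul_nonneg <;> linarith
      _ = 1 - 1 / Y := tele Y (by omega)
      _ ≤ 1 := by
          have : (0 : ℝ) ≤ 1 / Y := by positivity
          linarith
  have h5 := (abs_le.1 (hC Y hM)).2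
  have h6 : 0 < Real.log Y := Real.log_pos (by linarith)
  have h7 : ∑ p ∈ PS Y, (1 : ℝ) / p ≤ Real.log (Real.log Y) + C := by
    unfold PS
    linarith
  calc P (M + 1) ≤ Real.exp (2 * C + 2 + 2 * Real.log (Real.log Y)) := by
        refine h1.trans (Real.exp_le_exp.2 ?_)
        linarith
    _ = Real.exp (2 * C + 2) * Real.log Y ^ 2 := by
        rw [Real.exp_add]
        congr 1
        rw [show (2 : ℝ) * Real.log (Real.log Y) = ((2 : ℕ) : ℝ) * Real.log (Real.log Y) by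
          norm_num, Real.exp_nat_mul, Real.exp_log h6]

lemma nth_ge3 {M : ℕ} (hM : 1 ≤ M) : 3 ≤ Nat.nth Nat.Prime M := by
  have h1 : Nat.nth Nat.Prime 0 < Nat.nth Nat.Prime M :=
    (Nat.nth_lt_nth Nat.infinite_setOfPred_prime).2 (by omega)
  have h2 := (Nat.prime_nth_prime 0).two_le
  omega

end Pool.Agent.KS6_83.SI
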